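import Mathlib

set_option autoImplicit false

/-!
Combinatorics on the circle `ZMod n` for the simplex conjecture.
-/

namespace Pool.Agent.SimplexCircle

open Finset

/-- A closed chain of length `T` on the circle of length `n`. -/
structure Chain (n m T : ℕ) (G : Finset (ZMod n)) (u : ℕ → ℕ) : Prop where
  mono : StrictMono u
  per : ∀ k, u (k + T) = u k + n
  gap : ∀ k, u (k + 1) ≤ u k + m
  two : ∀ k, u k + m + 1 ≤ u (k + 2)
  mem : ∀ k, ((u k : ℕ) : ZMod n) ∈ G

/-- Two elements of a large set of residues with a middle difference. -/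
theorem exists_middle_diff (w D : ℕ) (hD : 1 ≤ D) (hw : 2 * D ≤ w) (Φ : Finset ℕ)
    (hΦ : Φ ⊆ Finset.range w) (hcard : D < Φ.card) :
    ∃ a ∈ Φ, ∃ b ∈ Φ, a < b ∧ D ≤ b - a ∧ b - a ≤ w - D := by
  classical
  by_contra hcon
  push Not at hcon
  have hne : Φ.Nonempty := Finset.card_pos.1 (by omega)
  set a0 := Φ.min' hne with ha0
  have ha0mem : a0 ∈ Φ := Finset.min'_mem _ _
  have hle : ∀ x ∈ Φ, a0 ≤ x := fun x hx => Finset.min'_le _ _ hx
  have hlt : ∀ x ∈ Φ, x < w := fun x hx => Finset.mem_range.1 (hΦ hx)
  -- every element is near a0 on the circle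
  have hnear : ∀ x ∈ Φ, x - a0 < D ∨ w - D < x - a0 := by
    intro x hx
    by_contra hh
    push Not at hh
    have h1 := hle x hx
    rcases Nat.lt_or_ge a0 x with h2 | h2
    · have := hcon a0 ha0mem x hx h2 hh.1
      omega
    · omega
  let f : ℕ → ℕ := fun x => if x - a0 < D then x - a0 else x - a0 - (w - D)
  have hmaps : ∀ x ∈ Φ, f x ∈ Finset.range D := by
    intro x hx
    have h1 := hle x hx
    have h2 := hlt x hx
    simp only [f, Finset.mem_range]
    split_ifs with h
    · exact h
    · omega
  obtain ⟨x, hx, y, hy, hxy, hfxy⟩ :=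
    Finset.exists_ne_map_eq_of_card_lt_of_maps_to (s := Φ) (t := Finset.range D)
      (by simpa using hcard) hmaps
  have hx1 := hle x hx
  have hx2 := hlt x hx
  have hy1 := hle y hy
  have hy2 := hlt y hy
  have hxn := hnear x hx
  have hyn := hnear y hy
  simp only [f] at hfxy
  split_ifs at hfxy with h3 h4 h4
  · omega
  · have h5 : x < y := by omega
    have := hcon x hx y hy h5 (by omega)
    omega
  · have h5 : y < x := by omega
    have := hcon y hy x hx h5 (by omega)
    omega
  · omega

theorem strictMono_add_le {c : ℕ → ℕ} (hc : StrictMono c) (i k : ℕ) : c i + k ≤ c (i + k) := by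
  induction k with
  | zero => simp
  | succ k ih =>
    have := hc (show i + k < i + (k + 1) by omega)
    omega

/-- Case A: the length of the circle is almost `T * m`. -/
theorem chain_balanced (n m T : ℕ) [NeZero n] (hT : 1 ≤ T) (h1 : n ≤ T * m)
    (h2 : T * (m - 1) < n) (h3 : T * (m + 1) ≤ 2 * n) (_hTn : T ≤ n) (G : Finset (ZMod n))
    (hG : n < G.card + m) : ∃ u, Chain n m T G u := by
  classical
  have hH : (Gᶜ).card ≤ m - 1 := by
    rw [Finset.card_compl, ZMod.card]; omega
  -- find a good shift
  let Y : Finset ℕ := (Finset.range (T * n)).filter (fun y => ((y / T : ℕ) : ZMod n) ∈ Gᶜ)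
  have hY : Y.card ≤ T * (m - 1) := by
    have hinj : Set.InjOn (fun y : ℕ => ((((y / T : ℕ) : ZMod n)), y % T)) (Y : Set ℕ) := by
      intro y hy z hz hyz
      simp only [Y, Finset.coe_filter, Finset.mem_range, Set.mem_ofPred_eq] at hy hz
      simp only [Prod.mk.injEq] at hyz
      have hy1 : y / T < n := (Nat.div_lt_iff_lt_mul (by omega)).2 (by linarith [hy.1, Nat.mul_comm T n])
      have hz1 : z / T < n := (Nat.div_lt_iff_lt_mul (by omega)).2 (by linarith [hz.1, Nat.mul_comm T n])
      have h4 : y / T = z / T := by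
        have := congrArg ZMod.val hyz.1
        rwa [ZMod.val_cast_of_lt hy1, ZMod.val_cast_of_lt hz1] at this
      have h5 := Nat.div_add_mod y T
      have h6 := Nat.div_add_mod z T
      rw [h4, hyz.2] at h5
      omega
    have hmap : Set.MapsTo (fun y : ℕ => ((((y / T : ℕ) : ZMod n)), y % T)) (Y : Set ℕ)
        ((Gᶜ ×ˢ Finset.range T : Finset (ZMod n × ℕ)) : Set (ZMod n × ℕ)) := by
      intro y hy
      simp only [Y, Finset.coe_filter, Finset.mem_range, Set.mem_ofPred_eq] at hy
      simp only [Finset.coe_product, Set.mem_prod, Finset.mem_coe, Finset.mem_range]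
      exact ⟨hy.2, Nat.mod_lt _ (by omega)⟩
    have := Finset.card_le_card_of_injOn _ hmap hinj
    rw [Finset.card_product, Finset.card_range] at this
    calc Y.card ≤ (Gᶜ).card * T := this
      _ ≤ (m - 1) * T := Nat.mul_le_mul_right _ hH
      _ = T * (m - 1) := Nat.mul_comm _ _
  have hex : ∃ a ∈ Finset.range n, a ∉ Y.image (fun y => y % n) := by
    by_contra hcon
    push Not at hcon
    have : (Finset.range n).card ≤ (Y.image (fun y => y % n)).card :=
      Finset.card_le_card (fun a ha => hcon a ha)
    have h4 := Finset.card_image_le (s := Y) (f := fun y => y % n)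
    rw [Finset.card_range] at this
    omega
  obtain ⟨a, ha, haY⟩ := hex
  rw [Finset.mem_range] at ha
  have hTpos : 0 < T := by omega
  have key : ∀ k, (((k * n + a) / T : ℕ) : ZMod n) ∈ G := by
    -- first k < T
    have h0 : ∀ k < T, (((k * n + a) / T : ℕ) : ZMod n) ∈ G := by
      intro k hk
      by_contra hcon
      apply haY
      rw [Finset.mem_image]
      refine ⟨k * n + a, ?_, ?_⟩
      · simp only [Y, Finset.mem_filter, Finset.mem_range, Finset.mem_compl]
        refine ⟨?_, hcon⟩
        calc k * n + a < k * n + n := by omega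
          _ = (k + 1) * n := by ring
          _ ≤ T * n := Nat.mul_le_mul_right _ hk
      · rw [Nat.mul_add_mod', Nat.mod_eq_of_lt ha]
    intro k
    induction k using Nat.strong_induction_on with
    | _ k ih =>
      rcases Nat.lt_or_ge k T with hk | hk
      · exact h0 k hk
      · have h5 : (k * n + a) / T = ((k - T) * n + a) / T + n := by
          have : k * n + a = ((k - T) * n + a) + n * T := by
            obtain ⟨j, rfl⟩ := Nat.exists_eq_add_of_le hk
            simp only [Nat.add_sub_cancel_left]
            ring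
          rw [this, Nat.add_mul_div_right _ _ hTpos]
        rw [h5, Nat.cast_add, ZMod.natCast_self, add_zero]
        exact ih (k - T) (by omega)
  refine ⟨fun k => (k * n + a) / T, ?_, ?_, ?_, ?_, key⟩
  · apply strictMono_nat_of_lt_succ
    intro k
    have : (k * n + a) / T + 1 ≤ ((k + 1) * n + a) / T := by
      calc (k * n + a) / T + 1 = (k * n + a + 1 * T) / T := by
            rw [Nat.add_mul_div_right _ _ hTpos]
        _ ≤ ((k + 1) * n + a) / T := Nat.div_le_div_right (by nlinarith)
    omega
  · intro k
    have : (k + T) * n + a = (k * n + a) + n * T := by ring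
    simp only [this]
    rw [Nat.add_mul_div_right _ _ hTpos]
  · intro k
    calc ((k + 1) * n + a) / T ≤ (k * n + a + m * T) / T := Nat.div_le_div_right (by nlinarith)
      _ = (k * n + a) / T + m := by rw [Nat.add_mul_div_right _ _ hTpos]
  · intro k
    calc (k * n + a) / T + m + 1 = (k * n + a + (m + 1) * T) / T := by
            rw [Nat.add_mul_div_right _ _ hTpos]; omega
      _ ≤ ((k + 2) * n + a) / T := Nat.div_le_div_right (by nlinarith)

theorem cast_ne {n : ℕ} {a b : ℕ} (h1 : a < b) (h2 : b < a + n) :
    (a : ZMod n) ≠ (b : ZMod n) := by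
  intro h
  have h3 : a ≡ b [MOD n] := (ZMod.natCast_eq_natCast_iff a b n).1 h
  have h4 : n ∣ b - a := (Nat.modEq_iff_dvd' h1.le).1 h3
  have := Nat.le_of_dvd (by omega) h4
  omega

/-- Case B: two classes of an (almost) equally spaced set of positions. -/
theorem chain_classes (n m e w s κ : ℕ) [NeZero n] (he : 1 ≤ e) (hn : n = e * w + s) (hs : s < e)
    (hκ : κ = min s 1) (hw : m + 1 ≤ w) (hw2 : w + 2 * κ ≤ 2 * m) (G : Finset (ZMod n))
    (hG : n < G.card + m) : ∃ u, Chain n m (2 * e) G u := by
  classical
  have hm1 : 1 ≤ m := by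
    by_contra hh
    have : w = 0 := by omega
    omega
  have hwn : w ≤ e * w := Nat.le_mul_of_pos_left _ he
  have hGc : (Gᶜ).card ≤ m - 1 := by
    rw [Finset.card_compl, ZMod.card]; omega
  obtain ⟨H, hHG, hHcard⟩ : ∃ H : Finset (ZMod n), Gᶜ ⊆ H ∧ H.card = m - 1 :=
    Finset.exists_superset_card_eq hGc (by rw [ZMod.card]; omega)
  obtain ⟨h0, hh0⟩ : ∃ h0 : ZMod n, κ = 0 ∨ h0 ∈ H := by
    rcases Nat.eq_zero_or_pos κ with h | h
    · exact ⟨0, Or.inl h⟩
    · have : H.Nonempty := Finset.card_pos.1 (by omega)
      obtain ⟨x, hx⟩ := this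
      exact ⟨x, Or.inr hx⟩
  set N := e * w with hN
  have hNpos : 0 < N := by
    rw [hN]; exact Nat.mul_pos (by omega) (by omega)
  let c : ℕ → ℕ := fun i => h0.val + 1 + i + i * s / N
  have hc : StrictMono c := by
    apply strictMono_nat_of_lt_succ
    intro i
    have : i * s / N ≤ (i + 1) * s / N := Nat.div_le_div_right (by nlinarith)
    simp only [c]
    omega
  have hper : ∀ i, c (i + N) = c i + n := by
    intro i
    have : (i + N) * s / N = i * s / N + s := by
      have : (i + N) * s = i * s + s * N := by ring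
      rw [this, Nat.add_mul_div_right _ _ hNpos]
    simp only [c, this]
    omega
  have hub : ∀ i k, k ≤ w → c (i + k) ≤ c i + k + κ := by
    intro i k hk
    have h1 : (i + k) * s / N ≤ i * s / N + κ := by
      rcases Nat.eq_zero_or_pos s with h | h
      · simp [h]
      · have hκ1 : κ = 1 := by omega
        calc (i + k) * s / N ≤ (i * s + 1 * N) / N := by
              apply Nat.div_le_div_right
              have : k * s ≤ w * e := Nat.mul_le_mul hk hs.le
              nlinarith
          _ = i * s / N + κ := by rw [Nat.add_mul_div_right _ _ hNpos, hκ1]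
    simp only [c]
    omega
  have hinj : ∀ i j, i < N → j < N → ((c i : ℕ) : ZMod n) = ((c j : ℕ) : ZMod n) → i = j := by
    have aux : ∀ i j, i < j → j < N → ((c i : ℕ) : ZMod n) ≠ ((c j : ℕ) : ZMod n) := by
      intro i j hij hj
      apply cast_ne (hc hij)
      rw [← hper i]
      exact hc (by omega)
    intro i j hi hj h
    rcases lt_trichotomy i j with h1 | h1 | h1
    · exact absurd h (aux i j h1 hj)
    · exact h1
    · exact absurd h.symm (aux j i h1 hi)
  have havoid : κ = 1 → ∀ i < N, ((c i : ℕ) : ZMod n) ≠ h0 := by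
    intro hκ1 i hi h
    have h2 : i * s / N < s := Nat.div_lt_of_lt_mul (Nat.mul_lt_mul_of_pos_right hi (by omega))
    obtain ⟨q, hq⟩ : ∃ q, q = i * s / N := ⟨_, rfl⟩
    have hci : c i = h0.val + 1 + i + q := by rw [hq]
    rw [← hq] at h2
    have h3 : ((h0.val : ℕ) : ZMod n) ≠ ((c i : ℕ) : ZMod n) := by
      apply cast_ne
      · rw [hci]; omega
      · rw [hci]; omega
    apply h3
    rw [h, ZMod.natCast_val, ZMod.cast_id]
  -- bad classes
  let NF : Finset ℕ := (Finset.range w).filter (fun a => ∃ j, j < e ∧ ((c (j * w + a) : ℕ) : ZMod n) ∈ H)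
  have hidx : ∀ j a, j < e → a < w → j * w + a < N := by
    intro j a hj ha
    calc j * w + a < j * w + w := by omega
      _ = (j + 1) * w := by ring
      _ ≤ e * w := Nat.mul_le_mul_right _ hj
  have hNF : NF.card ≤ m - 1 - κ := by
    let B : Finset (ZMod n) := if κ = 1 then H.erase h0 else H
    have hB : B.card ≤ m - 1 - κ := by
      simp only [B]
      split_ifs with h
      · rw [Finset.card_erase_of_mem (by rcases hh0 with h5 | h5; · omega
                                         · exact h5)]
        omega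
      · omega
    have hchoice : ∀ a : ℕ, a ∈ NF → ∃ j, j < e ∧ ((c (j * w + a) : ℕ) : ZMod n) ∈ H := by
      intro a ha
      exact (Finset.mem_filter.1 ha).2
    choose! J hJ using hchoice
    refine le_trans (Finset.card_le_card_of_injOn (fun a => ((c (J a * w + a) : ℕ) : ZMod n)) ?_ ?_) hB
    · intro a ha
      have ha' : a ∈ NF := ha
      have haw : a < w := Finset.mem_range.1 (Finset.mem_filter.1 ha').1
      have h5 := hJ a ha'
      simp only [B, Finset.mem_coe]
      split_ifs with h
      · exact Finset.mem_erase.2 ⟨havoid h _ (hidx _ _ h5.1 haw), h5.2⟩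
      · exact h5.2
    · intro a ha b hb hab
      have ha' : a ∈ NF := ha
      have hb' : b ∈ NF := hb
      have haw : a < w := Finset.mem_range.1 (Finset.mem_filter.1 ha').1
      have hbw : b < w := Finset.mem_range.1 (Finset.mem_filter.1 hb').1
      have h5 := hinj _ _ (hidx _ _ (hJ a ha').1 haw) (hidx _ _ (hJ b hb').1 hbw) hab
      have h6 : (J a * w + a) % w = (J b * w + b) % w := by rw [h5]
      rwa [Nat.mul_add_mod', Nat.mul_add_mod', Nat.mod_eq_of_lt haw, Nat.mod_eq_of_lt hbw] at h6
  obtain ⟨a, ha, b, hb, hab, hD1, hD2⟩ := exists_middle_diff w (w - m + κ) (by omega) (by omega)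
    (Finset.range w \ NF) Finset.sdiff_subset (by
      have := Finset.le_card_sdiff NF (Finset.range w)
      rw [Finset.card_range] at this
      omega)
  rw [Finset.mem_sdiff, Finset.mem_range] at ha hb
  have hfull : ∀ x, x < w → x ∉ NF → ∀ j, ((c (j * w + x) : ℕ) : ZMod n) ∉ H := by
    intro x hx hxNF j
    induction j using Nat.strong_induction_on with
    | _ j ih =>
      rcases Nat.lt_or_ge j e with hj | hj
      · intro hcon
        exact hxNF (Finset.mem_filter.2 ⟨Finset.mem_range.2 hx, j, hj, hcon⟩)
      · obtain ⟨i, rfl⟩ := Nat.exists_eq_add_of_le hj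
        have h7 : (e + i) * w + x = (i * w + x) + N := by rw [hN]; ring
        rw [h7, hper, Nat.cast_add, ZMod.natCast_self, add_zero]
        exact ih i (by omega)
  have hmemG : ∀ z : ZMod n, z ∉ H → z ∈ G := by
    intro z hz
    by_contra hzG
    exact hz (hHG (Finset.mem_compl.2 hzG))
  let u : ℕ → ℕ := fun k => c ((k / 2) * w + if k % 2 = 0 then a else b)
  have hu0 : ∀ j, u (2 * j) = c (j * w + a) := by
    intro j
    have h8 : 2 * j / 2 = j := by omega
    have h9 : 2 * j % 2 = 0 := by omega
    simp only [u, h8, h9, if_true]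
  have hu1 : ∀ j, u (2 * j + 1) = c (j * w + b) := by
    intro j
    have h8 : (2 * j + 1) / 2 = j := by omega
    have h9 : (2 * j + 1) % 2 = 1 := by omega
    simp only [u, h8, h9]
    simp
  have hstep : ∀ j, (j + 1) * w + a = (j * w + b) + (w - (b - a)) := by
    intro j
    have : (j + 1) * w = j * w + w := by ring
    omega
  refine ⟨u, ?_, ?_, ?_, ?_, ?_⟩
  · apply strictMono_nat_of_lt_succ
    intro k
    rcases Nat.even_or_odd' k with ⟨j, rfl | rfl⟩
    · rw [hu0, hu1]
      exact hc (by omega)
    · rw [hu1, show 2 * j + 1 + 1 = 2 * (j + 1) by ring, hu0]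
      apply hc
      have := hstep j
      omega
  · intro k
    rcases Nat.even_or_odd' k with ⟨j, rfl | rfl⟩
    · rw [show 2 * j + 2 * e = 2 * (j + e) by ring, hu0, hu0,
        show (j + e) * w + a = (j * w + a) + N by rw [hN]; ring, hper]
    · rw [show 2 * j + 1 + 2 * e = 2 * (j + e) + 1 by ring, hu1, hu1,
        show (j + e) * w + b = (j * w + b) + N by rw [hN]; ring, hper]
  · intro k
    rcases Nat.even_or_odd' k with ⟨j, rfl | rfl⟩
    · rw [hu0, hu1]
      have h10 := hub (j * w + a) (b - a) (by omega)
      rw [show j * w + a + (b - a) = j * w + b by omega] at h10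
      omega
    · rw [hu1, show 2 * j + 1 + 1 = 2 * (j + 1) by ring, hu0, hstep j]
      have h10 := hub (j * w + b) (w - (b - a)) (by omega)
      omega
  · intro k
    rcases Nat.even_or_odd' k with ⟨j, rfl | rfl⟩
    · rw [hu0, show 2 * j + 2 = 2 * (j + 1) by ring, hu0,
        show (j + 1) * w + a = (j * w + a) + w by ring]
      have := strictMono_add_le hc (j * w + a) w
      omega
    · rw [hu1, show 2 * j + 1 + 2 = 2 * (j + 1) + 1 by ring, hu1,
        show (j + 1) * w + b = (j * w + b) + w by ring]
      have := strictMono_add_le hc (j * w + b) w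
      omega
  · intro k
    rcases Nat.even_or_odd' k with ⟨j, rfl | rfl⟩
    · rw [hu0]
      exact hmemG _ (hfull a ha.1 ha.2 j)
    · rw [hu1]
      exact hmemG _ (hfull b hb.1 hb.2 j)

/-- The circle lemma for even `T = 2 * e`. -/
theorem exists_chain (n m e : ℕ) [NeZero n] (he : 1 ≤ e) (h1 : e * (m + 1) ≤ n)
    (h2 : n ≤ 2 * e * m) (G : Finset (ZMod n)) (hG : n < G.card + m) :
    ∃ u, Chain n m (2 * e) G u := by
  rcases Nat.lt_or_ge (2 * e * (m - 1)) n with h | h
  · apply chain_balanced n m (2 * e) (by omega) h2 h (by nlinarith) _ G hG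
    have hm : 1 ≤ m := by
      by_contra hh
      have hm0 : m = 0 := by omega
      subst hm0
      have hn0 : n ≠ 0 := NeZero.ne n
      omega
    nlinarith
  · have hm : 1 ≤ m := by
      by_contra hh
      have hm0 : m = 0 := by omega
      subst hm0
      have hn0 : n ≠ 0 := NeZero.ne n
      omega
    have h3 := Nat.div_add_mod n e
    have h4 : n % e < e := Nat.mod_lt _ (by omega)
    have h5 : m + 1 ≤ n / e := (Nat.le_div_iff_mul_le (by omega)).2 (by linarith [Nat.mul_comm e (m + 1)])
    have h6 : n / e ≤ 2 * (m - 1) := by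
      apply Nat.div_le_of_le_mul
      calc n ≤ 2 * e * (m - 1) := h
        _ = e * (2 * (m - 1)) := by ring
    exact chain_classes n m e (n / e) (n % e) (min (n % e) 1) he h3.symm h4 rfl h5 (by omega) G hG

end Pool.Agent.SimplexCircle
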