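import Mathlib
import Pool.Agent.SimplexCircle.Circle

set_option autoImplicit false

/-!
From chains on the circle to simplices, and the averaging argument of Katona.
-/

namespace Pool.Agent.SimplexCircle

open Finset

/-- The arc of length `r` starting at `x0`, pulled back along a circular arrangement. -/
def arcSet {n : ℕ} (σ : Fin n ≃ ZMod n) (x0 : ZMod n) (r : ℕ) : Finset (Fin n) :=
  Finset.univ.filter (fun x => (σ x - x0).val < r)

theorem mem_arcSet {n : ℕ} (σ : Fin n ≃ ZMod n) (x0 : ZMod n) (r : ℕ) (x : Fin n) :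
    x ∈ arcSet σ x0 r ↔ (σ x - x0).val < r := by
  simp [arcSet]

theorem val_sub_of_add {n : ℕ} [NeZero n] (a b δ : ℕ) (h : b = a + δ) (h1 : 0 < δ) (h2 : δ < n) :
    (((a : ℕ) : ZMod n) - ((b : ℕ) : ZMod n)).val = n - δ := by
  have h3 : ((a : ℕ) : ZMod n) - ((b : ℕ) : ZMod n) = ((n - δ : ℕ) : ZMod n) := by
    rw [h, Nat.cast_sub h2.le, ZMod.natCast_self]
    push_cast
    ring
  rw [h3, ZMod.val_cast_of_lt (by omega)]

theorem chain_facts {n m r T : ℕ} [NeZero n] (hrm : r + m = n) (hr : 1 ≤ r) (hT : 2 ≤ T)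
    {G : Finset (ZMod n)} {u : ℕ → ℕ} (hu : Chain n m T G u) :
    ∃ X : Finset (ZMod n), X ⊆ G ∧ X.card = T ∧ (∀ p : ZMod n, ∃ x ∈ X, r ≤ (p - x).val) ∧
      (∀ x ∈ X, ∃ p : ZMod n, ∀ y ∈ X, y ≠ x → (p - y).val < r) := by
  classical
  set X : Finset (ZMod n) := (Finset.range T).image (fun k => ((u k : ℕ) : ZMod n)) with hX
  have hcast : ∀ k, ((u (k + T) : ℕ) : ZMod n) = ((u k : ℕ) : ZMod n) := by
    intro k
    rw [hu.per, Nat.cast_add, ZMod.natCast_self, add_zero]
  have hmem : ∀ k, ((u k : ℕ) : ZMod n) ∈ X := by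
    intro k
    induction k using Nat.strong_induction_on with
    | _ k ih =>
      rcases Nat.lt_or_ge k T with hk | hk
      · exact Finset.mem_image.2 ⟨k, Finset.mem_range.2 hk, rfl⟩
      · obtain ⟨i, rfl⟩ := Nat.exists_eq_add_of_le hk
        rw [Nat.add_comm T i, hcast]
        exact ih i (by omega)
  have hne : ∀ i j, i < j → j < i + T → ((u i : ℕ) : ZMod n) ≠ ((u j : ℕ) : ZMod n) := by
    intro i j hij hj
    apply cast_ne (hu.mono hij)
    rw [← hu.per i]
    exact hu.mono hj
  have hmn : m < n := by omega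
  refine ⟨X, ?_, ?_, ?_, ?_⟩
  · intro x hx
    obtain ⟨k, _, rfl⟩ := Finset.mem_image.1 hx
    exact hu.mem k
  · rw [hX, Finset.card_image_of_injOn, Finset.card_range]
    intro i hi j hj hij
    have hi' : i < T := by simpa using hi
    have hj' : j < T := by simpa using hj
    rcases lt_trichotomy i j with h1 | h1 | h1
    · exact absurd hij (hne i j h1 (by omega))
    · exact h1
    · exact absurd hij.symm (hne j i h1 (by omega))
  · intro p
    set q : ℕ := u 0 + (p - ((u 0 : ℕ) : ZMod n)).val with hq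
    have hqp : ((q : ℕ) : ZMod n) = p := by
      rw [hq, Nat.cast_add, ZMod.natCast_val, ZMod.cast_id]
      ring
    have hqlt : q < u T := by
      have h1 := hu.per 0
      rw [Nat.zero_add] at h1
      rw [h1, hq]
      have := ZMod.val_lt (p - ((u 0 : ℕ) : ZMod n))
      omega
    have hfind : ∀ K, q < u K → ∃ k, u k ≤ q ∧ q < u (k + 1) := by
      intro K
      induction K with
      | zero => intro h; omega
      | succ K ih =>
        intro h
        rcases Nat.lt_or_ge q (u K) with h1 | h1
        · exact ih h1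
        · exact ⟨K, h1, h⟩
    obtain ⟨k, hk1, hk2⟩ := hfind T hqlt
    refine ⟨_, hmem (k + 1), ?_⟩
    have hg := hu.gap k
    rw [← hqp, val_sub_of_add q (u (k + 1)) (u (k + 1) - q) (by omega) (by omega) (by omega)]
    omega
  · intro x hx
    obtain ⟨j, hj, rfl⟩ := Finset.mem_image.1 hx
    have hjT : j < T := Finset.mem_range.1 hj
    refine ⟨((u (j + (T - 1)) : ℕ) : ZMod n), ?_⟩
    -- the main estimate
    have hmain : ∀ i, j + T + 1 ≤ i → i ≤ j + 2 * T - 2 →
        (((u (j + (T - 1)) : ℕ) : ZMod n) - ((u i : ℕ) : ZMod n)).val < r := by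
      intro i hi1 hi2
      have h1 := hu.two (j + (T - 1))
      have h2 : u (j + (T - 1) + 2) ≤ u i := hu.mono.monotone (by omega)
      have h3 : u i < u (j + (T - 1)) + n := by
        rw [← hu.per]
        exact hu.mono (by omega)
      rw [val_sub_of_add (u (j + (T - 1))) (u i) (u i - u (j + (T - 1))) (by omega) (by omega)
        (by omega)]
      omega
    intro y hy hyx
    obtain ⟨i, hi, rfl⟩ := Finset.mem_image.1 hy
    have hiT : i < T := Finset.mem_range.1 hi
    have hij : i ≠ j := by
      intro h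
      exact hyx (by rw [h])
    have hzero : ∀ z : ZMod n, z = ((u (j + (T - 1)) : ℕ) : ZMod n) →
        (((u (j + (T - 1)) : ℕ) : ZMod n) - z).val < r := by
      intro z hz
      rw [hz, sub_self, ZMod.val_zero]
      omega
    rcases Nat.lt_or_ge j i with h1 | h1
    · -- i > j
      rcases Nat.eq_or_lt_of_le (show i ≤ j + (T - 1) by omega) with h2 | h2
      · exact hzero _ (by rw [h2])
      · show (((u (j + (T - 1)) : ℕ) : ZMod n) - ((u i : ℕ) : ZMod n)).val < r
        rw [← hcast i]
        exact hmain _ (by omega) (by omega)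
    · have h3 : i < j := by omega
      rcases Nat.eq_or_lt_of_le (show i + 1 ≤ j by omega) with h2 | h2
      · apply hzero
        show ((u i : ℕ) : ZMod n) = _
        rw [← hcast i, show i + T = j + (T - 1) by omega]
      · show (((u (j + (T - 1)) : ℕ) : ZMod n) - ((u i : ℕ) : ZMod n)).val < r
        rw [← hcast i, ← hcast (i + T)]
        exact hmain _ (by omega) (by omega)

/-- A chain gives a simplex. -/
theorem simplex_of_chain {n m r T : ℕ} [NeZero n] (hrm : r + m = n) (hr : 1 ≤ r) (hT : 2 ≤ T)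
    (σ : Fin n ≃ ZMod n) (F : Finset (Finset (Fin n))) {G : Finset (ZMod n)} {u : ℕ → ℕ}
    (hu : Chain n m T G u) (hGF : ∀ x ∈ G, arcSet σ x r ∈ F) :
    ∃ S : Finset (Finset (Fin n)), S ⊆ F ∧ S.card = T ∧ S.inf id = (∅ : Finset (Fin n)) ∧
      ∀ U : Finset (Finset (Fin n)), U ⊆ S → U.card + 1 = T → (U.inf id).Nonempty := by
  classical
  obtain ⟨X, hXG, hXcard, hcov, hmin⟩ := chain_facts hrm hr hT hu
  refine ⟨X.image (fun x => arcSet σ x r), ?_, ?_, ?_, ?_⟩
  · intro A hA
    obtain ⟨x, hx, rfl⟩ := Finset.mem_image.1 hA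
    exact hGF x (hXG hx)
  · rw [Finset.card_image_of_injOn, hXcard]
    intro x hx y hy hxy
    by_contra hne
    obtain ⟨p, hp⟩ := hmin x hx
    obtain ⟨z, hz, hz2⟩ := hcov p
    have hzx : z = x := by
      by_contra h
      have := hp z hz h
      omega
    rw [hzx] at hz2
    have hpy := hp y hy (Ne.symm hne)
    have h1 : σ.symm p ∈ arcSet σ y r := by
      rw [mem_arcSet, Equiv.apply_symm_apply]; exact hpy
    have h2 : σ.symm p ∉ arcSet σ x r := by
      rw [mem_arcSet, Equiv.apply_symm_apply]; omega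
    have hxy' : arcSet σ x r = arcSet σ y r := hxy
    rw [hxy'] at h2
    exact h2 h1
  · rw [Finset.eq_empty_iff_forall_notMem]
    intro q hq
    obtain ⟨x, hx, hx2⟩ := hcov (σ q)
    have h1 := (Finset.mem_inf.1 hq) (arcSet σ x r) (Finset.mem_image_of_mem _ hx)
    rw [id, mem_arcSet] at h1
    omega
  · intro U hU hUcard
    have hScard : (X.image (fun x => arcSet σ x r)).card = T := by
      rw [Finset.card_image_of_injOn, hXcard]
      intro x hx y hy hxy
      by_contra hne
      obtain ⟨p, hp⟩ := hmin x hx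
      obtain ⟨z, hz, hz2⟩ := hcov p
      have hzx : z = x := by
        by_contra h
        have := hp z hz h
        omega
      rw [hzx] at hz2
      have hpy := hp y hy (Ne.symm hne)
      have h1 : σ.symm p ∈ arcSet σ y r := by
        rw [mem_arcSet, Equiv.apply_symm_apply]; exact hpy
      have h2 : σ.symm p ∉ arcSet σ x r := by
        rw [mem_arcSet, Equiv.apply_symm_apply]; omega
      have hxy' : arcSet σ x r = arcSet σ y r := hxy
      rw [hxy'] at h2
      exact h2 h1
    obtain ⟨A, hA, hAU⟩ : ∃ A ∈ X.image (fun x => arcSet σ x r), A ∉ U := by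
      by_contra hcon
      push Not at hcon
      have := Finset.card_le_card (fun A hA => hcon A hA : X.image (fun x => arcSet σ x r) ⊆ U)
      omega
    obtain ⟨x, hx, rfl⟩ := Finset.mem_image.1 hA
    obtain ⟨p, hp⟩ := hmin x hx
    refine ⟨σ.symm p, Finset.mem_inf.2 ?_⟩
    intro B hB
    obtain ⟨y, hy, rfl⟩ := Finset.mem_image.1 (hU hB)
    have hyx : y ≠ x := by
      rintro rfl
      exact hAU hB
    rw [id, mem_arcSet, Equiv.apply_symm_apply]
    exact hp y hy hyx

/-- The value preserving bijection. -/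
def valEquiv (n : ℕ) [NeZero n] : ZMod n ≃ Fin (Fintype.card (Fin n)) where
  toFun z := ⟨z.val, by simpa using ZMod.val_lt z⟩
  invFun k := ((k : ℕ) : ZMod n)
  left_inv z := by simp
  right_inv k := by
    apply Fin.ext
    have hk : (k : ℕ) < n := by simpa using k.2
    simp [ZMod.val_cast_of_lt hk]

theorem card_arc_eq (n r : ℕ) [NeZero n] (A : Finset (Fin n)) (hA : A.card = r) :
    (Finset.univ.filter (fun σ : Fin n ≃ ZMod n => arcSet σ 0 r = A)).card
      = Nat.factorial r * Nat.factorial (n - r) := by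
  classical
  have h1 := Numbering.card_prefixed A
  rw [hA, Fintype.card_fin] at h1
  rw [← h1]
  apply Finset.card_bijective (Equiv.equivCongr (Equiv.refl (Fin n)) (valEquiv n))
    (Equiv.bijective _)
  intro σ
  rw [Finset.mem_filter, Numbering.mem_prefixed]
  constructor
  · rintro ⟨_, h⟩ x
    rw [← h, mem_arcSet, sub_zero]
    rw [← h] at hA
    rw [hA]
    rfl
  · intro h
    refine ⟨Finset.mem_univ _, ?_⟩
    ext x
    rw [mem_arcSet, sub_zero, h x, hA]
    rfl

theorem card_arc_mem (n r : ℕ) [NeZero n] (F : Finset (Finset (Fin n)))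
    (hF : ∀ A ∈ F, A.card = r) :
    (Finset.univ.filter (fun σ : Fin n ≃ ZMod n => arcSet σ 0 r ∈ F)).card
      = F.card * (Nat.factorial r * Nat.factorial (n - r)) := by
  classical
  rw [Finset.card_eq_sum_card_fiberwise (f := fun σ : Fin n ≃ ZMod n => arcSet σ 0 r) (t := F)]
  · rw [← smul_eq_mul, ← Finset.sum_const]
    apply Finset.sum_congr rfl
    intro A hA
    rw [← card_arc_eq n r A (hF A hA)]
    congr 1
    ext σ
    simp only [Finset.mem_filter, Finset.mem_univ, true_and]
    constructor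
    · exact fun h => h.2
    · exact fun h => ⟨by rw [h]; exact hA, h⟩
  · intro σ hσ
    simpa using hσ

theorem card_arc_rotate (n r : ℕ) [NeZero n] (F : Finset (Finset (Fin n))) (x0 : ZMod n) :
    (Finset.univ.filter (fun σ : Fin n ≃ ZMod n => arcSet σ x0 r ∈ F)).card
      = (Finset.univ.filter (fun σ : Fin n ≃ ZMod n => arcSet σ 0 r ∈ F)).card := by
  classical
  apply Finset.card_bijective (Equiv.equivCongr (Equiv.refl (Fin n)) (Equiv.subRight x0))
    (Equiv.bijective _)
  intro σ
  have h : arcSet (Equiv.equivCongr (Equiv.refl (Fin n)) (Equiv.subRight x0) σ) 0 r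
      = arcSet σ x0 r := by
    ext x
    simp [mem_arcSet]
  rw [Finset.mem_filter, Finset.mem_filter, h]
  simp

/-- Katona's averaging argument. -/
theorem katona_bound (n r : ℕ) [NeZero n] (hr : 1 ≤ r) (hrn : r ≤ n)
    (F : Finset (Finset (Fin n))) (hF : ∀ A ∈ F, A.card = r)
    (hG : ∀ σ : Fin n ≃ ZMod n, (Finset.univ.filter (fun x0 => arcSet σ x0 r ∈ F)).card ≤ r) :
    F.card ≤ (n - 1).choose (r - 1) := by
  classical
  have h1 : ∑ σ : Fin n ≃ ZMod n, (Finset.univ.filter (fun x0 => arcSet σ x0 r ∈ F)).card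
      ≤ Nat.factorial n * r := by
    calc ∑ σ : Fin n ≃ ZMod n, (Finset.univ.filter (fun x0 => arcSet σ x0 r ∈ F)).card
        ≤ ∑ _σ : Fin n ≃ ZMod n, r := Finset.sum_le_sum (fun σ _ => hG σ)
      _ = Nat.factorial n * r := by
        rw [Finset.sum_const, Finset.card_univ, smul_eq_mul,
          Fintype.card_equiv (ZMod.finEquiv n).toEquiv, Fintype.card_fin]
  have h2 : ∑ σ : Fin n ≃ ZMod n, (Finset.univ.filter (fun x0 => arcSet σ x0 r ∈ F)).card
      = n * (F.card * (Nat.factorial r * Nat.factorial (n - r))) := by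
    have h3 : ∑ σ : Fin n ≃ ZMod n, (Finset.univ.filter (fun x0 => arcSet σ x0 r ∈ F)).card
        = ∑ x0 : ZMod n, (Finset.univ.filter (fun σ : Fin n ≃ ZMod n => arcSet σ x0 r ∈ F)).card := by
      simp only [Finset.card_filter]
      exact Finset.sum_comm
    rw [h3, Finset.sum_congr rfl (fun x0 _ => card_arc_rotate n r F x0), Finset.sum_const,
      Finset.card_univ, ZMod.card, smul_eq_mul, card_arc_mem n r F hF]
  rw [h2] at h1
  have h4 : (n - 1).choose (r - 1) * Nat.factorial (r - 1) * Nat.factorial (n - r)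
      = Nat.factorial (n - 1) := by
    have := Nat.choose_mul_factorial_mul_factorial (show r - 1 ≤ n - 1 by omega)
    rwa [show n - 1 - (r - 1) = n - r by omega] at this
  have h5 : Nat.factorial n = n * Nat.factorial (n - 1) :=
    (Nat.mul_factorial_pred (by omega)).symm
  have h6 : Nat.factorial r = r * Nat.factorial (r - 1) :=
    (Nat.mul_factorial_pred (by omega)).symm
  have h7 : n * (Nat.factorial r * Nat.factorial (n - r)) * F.card
      ≤ n * (Nat.factorial r * Nat.factorial (n - r)) * (n - 1).choose (r - 1) := by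
    calc n * (Nat.factorial r * Nat.factorial (n - r)) * F.card
        = n * (F.card * (Nat.factorial r * Nat.factorial (n - r))) := by ring
      _ ≤ Nat.factorial n * r := h1
      _ = n * (Nat.factorial r * Nat.factorial (n - r)) * (n - 1).choose (r - 1) := by
        rw [h5, ← h4, h6]; ring
  have hpos : 0 < n * (Nat.factorial r * Nat.factorial (n - r)) := by
    exact Nat.mul_pos (by omega) (Nat.mul_pos (Nat.factorial_pos r) (Nat.factorial_pos (n - r)))
  exact Nat.le_of_mul_le_mul_left h7 hpos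

/-- The bound for simplices of odd dimension. -/
theorem main_bound (n r e : ℕ) (he : 1 ≤ e) (hr : 1 ≤ r) (hrn : r < n)
    (h1 : e * (n - r + 1) ≤ n) (h2 : n ≤ 2 * e * (n - r)) (F : Finset (Finset (Fin n)))
    (hF : ∀ A ∈ F, A.card = r)
    (hS : ¬ ∃ S : Finset (Finset (Fin n)), S ⊆ F ∧ S.card = 2 * e ∧
      S.inf id = (∅ : Finset (Fin n)) ∧
      ∀ U : Finset (Finset (Fin n)), U ⊆ S → U.card + 1 = 2 * e → (U.inf id).Nonempty) :
    F.card ≤ (n - 1).choose (r - 1) := by
  classical
  have : NeZero n := ⟨by omega⟩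
  apply katona_bound n r hr hrn.le F hF
  intro σ
  by_contra hcon
  push Not at hcon
  obtain ⟨u, hu⟩ := exists_chain n (n - r) e he h1 h2
    (Finset.univ.filter (fun x0 => arcSet σ x0 r ∈ F)) (by omega)
  exact hS (simplex_of_chain (by omega) hr (by omega) σ F hu
    (fun x hx => (Finset.mem_filter.1 hx).2))

end Pool.Agent.SimplexCircle
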